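import Pool.Agent.Work.MP_88b7aa_gt.D.P10_10_10.F0

/-! The class is done. -/

set_option autoImplicit false

namespace Pool.Agent.Work.MP_88b7aa_gt.D.P10_10_10

open Pool.Agent.Work.MP_88b7aa_gt.PQ
open Pool.Agent.Work.MP_88b7aa_gt.Kc

theorem g0 : CGood (KS (.ex 10) (.ex 10) (.ex 10)) H.k ⟨267698610774696, 0, 0, 0, 0, 8⟩ ⟨267698610774696, 0, 0, 0, 0, 8⟩ ⟨267698610774696, 0, 0, 0, 0, 8⟩ ⟨128635188019200, 0, 0, 0, 0, 0⟩ :=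
  mC_good H_ok M0.k LB.nil LC.nil

theorem g1 : CGood (KS (.ex 10) (.ex 10) (.ex 10)) H.k ⟨267698610774696, 0, 0, 0, 0, 8⟩ ⟨267698610774696, 0, 0, 0, 0, 8⟩ ⟨267698610774696, 0, 0, 0, 0, 8⟩ ⟨128310014115840, 0, 0, 0, 0, 0⟩ :=
  mC_good H_ok M1.k LB.nil (LC.cons g0 LC.nil)

theorem g2 : CGood (KS (.ex 10) (.ex 10) (.ex 10)) H.k ⟨267698610774696, 0, 0, 0, 0, 8⟩ ⟨267698610774696, 0, 0, 0, 0, 8⟩ ⟨267698610774696, 0, 0, 0, 0, 8⟩ ⟨118298889945088, 0, 0, 0, 0, 0⟩ :=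
  mC_good H_ok M2.k LB.nil (LC.cons g1 LC.nil)

theorem g3 : CGood (KS (.ex 10) (.ex 10) (.ex 10)) H.k ⟨267698610774696, 0, 0, 0, 0, 8⟩ ⟨267698610774696, 0, 0, 0, 0, 8⟩ ⟨267698610774696, 0, 0, 0, 0, 8⟩ ⟨0, 0, 0, 0, 0, 0⟩ :=
  mC_good H_ok M3.k LB.nil (LC.cons g2 LC.nil)

theorem done : Done (KS (.ex 10) (.ex 10) (.ex 10)) := fin (by decide +kernel) g3

end Pool.Agent.Work.MP_88b7aa_gt.D.P10_10_10
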