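import Pool.Agent.Work.MP_88b7aa_gt.Kc.Mdk
import Pool.Agent.Work.MP_88b7aa_gt.Kc.Tpl
import Pool.Agent.Work.MP_88b7aa_gt.Kc.TplB
import Pool.Agent.Work.MP_88b7aa_gt.E3.TA10
import Pool.Agent.Work.MP_88b7aa_gt.E3.TB10
import Pool.Agent.Work.MP_88b7aa_gt.E3.TG10

/-! The check functions of the class. -/

set_option autoImplicit false

namespace Pool.Agent.Work.MP_88b7aa_gt.D.P10_10_10

open Pool.Agent.Work.MP_88b7aa_gt.PQ
open Pool.Agent.Work.MP_88b7aa_gt.Kc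

noncomputable def H : Chs Dt := mkH 2 [fS 2 T000, fS 2 TSB, fS 2 TA10, fB 2 TB10, fB 2 TG10]

theorem H_ok : H.OK (KS (.ex 10) (.ex 10) (.ex 10)) := mkH_ok (by decide) (by decide) (LF.cons (fS_ok (T000_ok _) (by decide)) (LF.cons (fS_ok (TSB_ok _) (by decide)) (LF.cons (fS_ok (TA10_ok fun _ _ _ h => h.1) (by decide)) (LF.cons (fB_ok (TB10_ok fun _ _ _ h => h.1) (by decide)) (LF.cons (fB_ok (TG10_ok fun _ _ _ h => h.1) (by decide)) LF.nil)))))

end Pool.Agent.Work.MP_88b7aa_gt.D.P10_10_10
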